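import Mathlib

open Filter

namespace Pool.Agent.Results.MP_18af55_lc.StrictLog

/-- A nondeterministic Turing machine with `k + 1` two-way infinite tapes. The tape alphabet is
`Option (α ⊕ Γ)`: `none` is the blank, `some (Sum.inl a)` is the input symbol `a`, and
`some (Sum.inr b)` is a further work symbol. Tape `0` initially holds the input. The transition
relation `δ` maps a state and the scanned symbols to the set of possible actions: a new state, the
symbols written, and the head moves (`-1`, `0` or `1`). -/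
structure NTM (α : Type) where
  k : ℕ
  Γ : Type
  finΓ : Finite Γ
  Q : Type
  finQ : Finite Q
  start : Q
  acc : Set Q
  δ : Q → (Fin (k + 1) → Option (α ⊕ Γ)) →
    Set (Q × (Fin (k + 1) → Option (α ⊕ Γ)) × (Fin (k + 1) → SignType))

namespace NTM

variable {α : Type}

/-- Configurations: a state, the contents of the tapes and the positions of the heads. -/
@[ext] structure Cfg (M : NTM α) where
  state : M.Q
  tape : Fin (M.k + 1) → ℤ → Option (α ⊕ M.Γ)
  head : Fin (M.k + 1) → ℤ

variable (M : NTM α)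

/-- The symbols scanned by the heads. -/
def scan (c : M.Cfg) : Fin (M.k + 1) → Option (α ⊕ M.Γ) := fun i => c.tape i (c.head i)

/-- The configuration obtained from `c` by the action `τ`. -/
def next (c : M.Cfg) (τ : M.Q × (Fin (M.k + 1) → Option (α ⊕ M.Γ)) ×
    (Fin (M.k + 1) → SignType)) : M.Cfg where
  state := τ.1
  tape := fun i => Function.update (c.tape i) (c.head i) (τ.2.1 i)
  head := fun i => c.head i + (τ.2.2 i : ℤ)

/-- `c'` is a possible next configuration of `c`. -/
def Step (c c' : M.Cfg) : Prop := ∃ τ ∈ M.δ c.state (M.scan c), c' = M.next c τ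

/-- The machine can choose among more than one next configuration. -/
def Branching (c : M.Cfg) : Prop := ∃ c₁ c₂, M.Step c c₁ ∧ M.Step c c₂ ∧ c₁ ≠ c₂

/-- Accepting configurations: the machine has halted in an accepting state. -/
def Accepting (c : M.Cfg) : Prop := (∀ c', ¬ M.Step c c') ∧ c.state ∈ M.acc

/-- The initial configuration on input `x`: the input is written on the cells `0, …, |x| - 1` of
tape `0`, everything else is blank, and all heads are at cell `0`. -/
def init (x : List α) : M.Cfg where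
  state := M.start
  tape := fun i z => if i = 0 ∧ 0 ≤ z then (x[z.toNat]?).map Sum.inl else none
  head := fun _ => 0

/-- `Run t g c c'`: there is a computation from `c` to `c'` of exactly `t` steps, exactly `g` of
which are nondeterministic. -/
inductive Run : ℕ → ℕ → M.Cfg → M.Cfg → Prop
  | refl (c : M.Cfg) : Run 0 0 c c
  | det {t g : ℕ} {c c' c'' : M.Cfg} : M.Step c c' → ¬ M.Branching c → Run t g c' c'' →
      Run (t + 1) g c c''
  | nondet {t g : ℕ} {c c' c'' : M.Cfg} : M.Step c c' → M.Branching c → Run t g c' c'' →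
      Run (t + 1) (g + 1) c c''

/-- `M` has an accepting computation on `x` with `t` steps, `g` of them nondeterministic. -/
def AcceptsIn (x : List α) (t g : ℕ) : Prop := ∃ c, M.Run t g (M.init x) c ∧ M.Accepting c

end NTM

/-- `NTIME-NONDET(t, g)` over the input alphabet `α`: the machine accepts exactly the words of `A`,
and each word of `A` has an accepting computation of length at most `t |x|` with at most `g |x|`
nondeterministic steps. -/
def NTimeNondet (α : Type) (t g : ℕ → ℝ) : Set (Set (List α)) :=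
  {A | ∃ M : NTM α, (∀ x, x ∈ A ↔ ∃ T G, M.AcceptsIn x T G) ∧
    ∀ x ∈ A, ∃ T G : ℕ, M.AcceptsIn x T G ∧ (T : ℝ) ≤ t x.length ∧ (G : ℝ) ≤ g x.length}

/-- The class `Q_g`: real time with at most `g` nondeterministic steps. -/
def QClass (α : Type) (g : ℕ → ℝ) : Set (Set (List α)) := NTimeNondet α (fun n => n) g

namespace NTM

variable {α : Type} (M : NTM α)

/-! ### Basic facts -/

lemma next_injective (c : M.Cfg) : Function.Injective (M.next c) := by
  rintro ⟨q1, w1, d1⟩ ⟨q2, w2, d2⟩ h
  have h1 : q1 = q2 := congrArg Cfg.state h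
  have h2 : w1 = w2 := by
    funext i
    have := congrFun (congrFun (congrArg Cfg.tape h) i) (c.head i)
    simpa [next] using this
  have h3 : d1 = d2 := by
    funext i
    have := congrFun (congrArg Cfg.head h) i
    simp only [next, add_right_inj] at this
    have key : ∀ a b : SignType, ((a : ℤ) = (b : ℤ)) → a = b := by decide
    exact key _ _ this
  subst h1 h2 h3
  rfl

lemma branching_iff (c : M.Cfg) : M.Branching c ↔
    ∃ τ₁ ∈ M.δ c.state (M.scan c), ∃ τ₂ ∈ M.δ c.state (M.scan c), τ₁ ≠ τ₂ := by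
  constructor
  · rintro ⟨c1, c2, ⟨τ1, h1, rfl⟩, ⟨τ2, h2, rfl⟩, hne⟩
    exact ⟨τ1, h1, τ2, h2, fun h => hne (by rw [h])⟩
  · rintro ⟨τ1, h1, τ2, h2, hne⟩
    exact ⟨_, _, ⟨τ1, h1, rfl⟩, ⟨τ2, h2, rfl⟩, fun h => hne (M.next_injective c h)⟩

/-- Halted. -/
def Halted (c : M.Cfg) : Prop := ∀ c', ¬ M.Step c c'

lemma halted_iff (c : M.Cfg) : M.Halted c ↔ M.δ c.state (M.scan c) = ∅ := by
  unfold Halted Step
  rw [Set.eq_empty_iff_forall_notMem]
  constructor
  · intro h τ hτ
    exact h _ ⟨τ, hτ, rfl⟩
  · rintro h c' ⟨τ, hτ, _⟩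
    exact h τ hτ

lemma not_branching_of_halted {c : M.Cfg} (h : M.Halted c) : ¬ M.Branching c := by
  rintro ⟨c1, _, h1, _⟩
  exact h c1 h1

/-- Steps where a halted configuration may idle. -/
def SStep (c c' : M.Cfg) : Prop := M.Step c c' ∨ (M.Halted c ∧ c' = c)

/-- Runs with idling. -/
inductive SRun : ℕ → ℕ → M.Cfg → M.Cfg → Prop
  | refl (c : M.Cfg) : SRun 0 0 c c
  | det {t g : ℕ} {c c' c'' : M.Cfg} : M.SStep c c' → ¬ M.Branching c → SRun t g c' c'' →
      SRun (t + 1) g c c''
  | nondet {t g : ℕ} {c c' c'' : M.Cfg} : M.SStep c c' → M.Branching c → SRun t g c' c'' →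
      SRun (t + 1) (g + 1) c c''

lemma srun_idle {c : M.Cfg} (h : M.Halted c) (n : ℕ) : M.SRun n 0 c c := by
  induction n with
  | zero => exact .refl c
  | succ n ih => exact .det (Or.inr ⟨h, rfl⟩) (M.not_branching_of_halted h) ih

lemma srun_of_run {t g : ℕ} {c c' : M.Cfg} (h : M.Run t g c c') (hc : M.Halted c') (n : ℕ)
    (hn : t ≤ n) : M.SRun n g c c' := by
  induction h generalizing n with
  | refl c => exact M.srun_idle hc n
  | det h1 h2 _ ih =>
    obtain ⟨m, rfl⟩ : ∃ m, n = m + 1 := ⟨n - 1, by omega⟩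
    exact .det (Or.inl h1) h2 (ih hc m (by omega))
  | nondet h1 h2 _ ih =>
    obtain ⟨m, rfl⟩ : ∃ m, n = m + 1 := ⟨n - 1, by omega⟩
    exact .nondet (Or.inl h1) h2 (ih hc m (by omega))

lemma run_of_srun {t g : ℕ} {c c' : M.Cfg} (h : M.SRun t g c c') : ∃ T, M.Run T g c c' := by
  induction h with
  | refl c => exact ⟨0, .refl c⟩
  | @det t g c c1 c2 h1 h2 _ ih =>
    obtain ⟨T, hT⟩ := ih
    rcases h1 with h1 | ⟨_, rfl⟩
    · exact ⟨T + 1, .det h1 h2 hT⟩
    · exact ⟨T, hT⟩
  | @nondet t g c c1 c2 h1 h2 _ ih =>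
    obtain ⟨T, hT⟩ := ih
    rcases h1 with h1 | ⟨h3, rfl⟩
    · exact ⟨T + 1, .nondet h1 h2 hT⟩
    · exact absurd h2 (M.not_branching_of_halted h3)

lemma srun_split {a b g : ℕ} {c c'' : M.Cfg} (h : M.SRun (a + b) g c c'') :
    ∃ c' g1 g2, g1 ≤ g ∧ M.SRun a g1 c c' ∧ M.SRun b g2 c' c'' := by
  induction a generalizing c g with
  | zero =>
    rw [Nat.zero_add] at h
    exact ⟨c, 0, g, Nat.zero_le _, .refl c, h⟩
  | succ a ih =>
    rw [show a + 1 + b = (a + b) + 1 by omega] at h
    cases h with
    | det h1 h2 h3 =>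
      obtain ⟨c', g1, g2, hg, ha, hb⟩ := ih h3
      exact ⟨c', g1, g2, hg, .det h1 h2 ha, hb⟩
    | nondet h1 h2 h3 =>
      obtain ⟨c', g1, g2, hg, ha, hb⟩ := ih h3
      exact ⟨c', g1 + 1, g2, by omega, .nondet h1 h2 ha, hb⟩

lemma srun_append {a b g1 g2 : ℕ} {c c' c'' : M.Cfg} (h : M.SRun a g1 c c')
    (h' : M.SRun b g2 c' c'') : M.SRun (a + b) (g1 + g2) c c'' := by
  induction h with
  | refl c => simpa using h'
  | @det t g c c1 c2 h1 h2 _ ih =>
    rw [show t + 1 + b = (t + b) + 1 by omega]
    exact .det h1 h2 (ih h')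
  | @nondet t g c c1 c2 h1 h2 _ ih =>
    rw [show t + 1 + b = (t + b) + 1 by omega, show g + 1 + g2 = (g + g2) + 1 by omega]
    exact .nondet h1 h2 (ih h')

/-! ### Counting partial computations -/

/-- The type of actions. -/
abbrev Act : Type := M.Q × (Fin (M.k + 1) → Option (α ⊕ M.Γ)) × (Fin (M.k + 1) → SignType)

/-- configurations reachable in `t` steps with at most `g` nondeterministic ones. -/
def Reach (t g : ℕ) (c : M.Cfg) : Set M.Cfg := {c' | ∃ g' ≤ g, M.SRun t g' c c'}

lemma reach_card [Finite α] (t g : ℕ) (c : M.Cfg) :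
    (M.Reach t g c).Finite ∧ (M.Reach t g c).ncard ≤ (Nat.card M.Act + 1) ^ g := by
  have := M.finΓ
  have := M.finQ
  have : Finite M.Act := inferInstance
  induction t generalizing g c with
  | zero =>
    have : M.Reach 0 g c ⊆ {c} := by
      rintro c' ⟨g', _, h⟩
      cases h
      rfl
    refine ⟨(Set.finite_singleton c).subset this, ?_⟩
    calc (M.Reach 0 g c).ncard ≤ ({c} : Set M.Cfg).ncard :=
          Set.ncard_le_ncard this (Set.finite_singleton c)
      _ = 1 := Set.ncard_singleton c
      _ ≤ _ := Nat.one_le_pow _ _ (by omega)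
  | succ t ih =>
    by_cases hb : M.Branching c
    · cases g with
      | zero =>
        have : M.Reach (t + 1) 0 c ⊆ ∅ := by
          rintro c' ⟨g', hg', h⟩
          cases h with
          | det _ h2 _ => exact absurd hb h2
          | nondet _ _ _ => omega
        rw [Set.subset_empty_iff] at this
        rw [this]
        simp
      | succ g =>
        have hsub : M.Reach (t + 1) (g + 1) c ⊆
            ⋃ τ : M.Act, M.Reach t g (M.next c τ) := by
          rintro c' ⟨g', hg', h⟩
          cases h with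
          | det _ h2 _ => exact absurd hb h2
          | @nondet _ g'' _ c1 _ h1 _ h3 =>
            rcases h1 with ⟨τ, _, rfl⟩ | ⟨h4, _⟩
            · exact Set.mem_iUnion.2 ⟨τ, g'', by omega, h3⟩
            · exact absurd hb (M.not_branching_of_halted h4)
        have hfin : (⋃ τ : M.Act, M.Reach t g (M.next c τ)).Finite :=
          Set.finite_iUnion fun τ => (ih g _).1
        refine ⟨hfin.subset hsub, ?_⟩
        have := Fintype.ofFinite M.Act
        calc (M.Reach (t + 1) (g + 1) c).ncard
            ≤ (⋃ τ : M.Act, M.Reach t g (M.next c τ)).ncard :=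
              Set.ncard_le_ncard hsub hfin
          _ ≤ ∑ τ : M.Act, (M.Reach t g (M.next c τ)).ncard := by
              have := Set.ncard_iUnion_le_of_fintype (fun τ : M.Act => M.Reach t g (M.next c τ))
              simpa using this
          _ ≤ ∑ τ : M.Act, (Nat.card M.Act + 1) ^ g := Finset.sum_le_sum fun τ _ => (ih g _).2
          _ = Nat.card M.Act * (Nat.card M.Act + 1) ^ g := by
              simp [Nat.card_eq_fintype_card]
          _ ≤ (Nat.card M.Act + 1) ^ (g + 1) := by
              rw [pow_succ, mul_comm]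
              exact Nat.mul_le_mul_left _ (by omega)
    · by_cases hex : ∃ c1, M.SStep c c1
      · obtain ⟨c1, hc1⟩ := hex
        have huniq : ∀ c2, M.SStep c c2 → c2 = c1 := by
          intro c2 hc2
          rcases hc1 with h1 | ⟨h1, rfl⟩ <;> rcases hc2 with h2 | ⟨h2, rfl⟩
          · by_contra hne
            exact hb ⟨c2, c1, h2, h1, hne⟩
          · exact absurd h1 (h2 _)
          · exact absurd h2 (h1 _)
          · rfl
        have hsub : M.Reach (t + 1) g c ⊆ M.Reach t g c1 := by
          rintro c' ⟨g', hg', h⟩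
          cases h with
          | det h1 _ h3 => rw [huniq _ h1] at h3; exact ⟨g', hg', h3⟩
          | nondet _ h2 _ => exact absurd h2 hb
        exact ⟨(ih g c1).1.subset hsub, (Set.ncard_le_ncard hsub (ih g c1).1).trans (ih g c1).2⟩
      · have : M.Reach (t + 1) g c ⊆ ∅ := by
          rintro c' ⟨g', hg', h⟩
          cases h with
          | det h1 _ _ => exact hex ⟨_, h1⟩
          | nondet h1 _ _ => exact hex ⟨_, h1⟩
        rw [Set.subset_empty_iff] at this
        rw [this]
        simp


/-! ### Locality -/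

/-- Agreement of two configurations in the windows of radius `r` around the heads. -/
def Near (r : ℕ) (c c' : M.Cfg) : Prop :=
  c.state = c'.state ∧ ∀ i, ∀ d : ℤ, |d| ≤ (r : ℤ) →
    c.tape i (c.head i + d) = c'.tape i (c'.head i + d)

variable {M}

lemma Near.scan_eq {r : ℕ} {c c' : M.Cfg} (h : M.Near r c c') : M.scan c = M.scan c' := by
  funext i
  have := h.2 i 0 (by simp)
  simpa [scan] using this

lemma Near.halted_iff {r : ℕ} {c c' : M.Cfg} (h : M.Near r c c') :
    M.Halted c ↔ M.Halted c' := by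
  rw [M.halted_iff, M.halted_iff, h.1, h.scan_eq]

lemma Near.accepting {r : ℕ} {c c' : M.Cfg} (h : M.Near r c c') (hc : M.Accepting c) :
    M.Accepting c' := ⟨h.halted_iff.1 hc.1, h.1 ▸ hc.2⟩

lemma Near.mono {r s : ℕ} {c c' : M.Cfg} (h : M.Near r c c') (hs : s ≤ r) : M.Near s c c' :=
  ⟨h.1, fun i d hd => h.2 i d (hd.trans (by exact_mod_cast hs))⟩

lemma Near.step {r : ℕ} {c c' c1 : M.Cfg} (h : M.Near (r + 1) c c') (h1 : M.SStep c c1) :
    ∃ c1', M.SStep c' c1' ∧ M.Near r c1 c1' := by
  rcases h1 with ⟨τ, hτ, rfl⟩ | ⟨hH, rfl⟩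
  · refine ⟨M.next c' τ, Or.inl ⟨τ, ?_, rfl⟩, rfl, ?_⟩
    · rw [← h.1, ← h.scan_eq]; exact hτ
    · intro i d hd
      have hs : |((τ.2.2 i : SignType) : ℤ)| ≤ 1 := by
        have key : ∀ a : SignType, |(a : ℤ)| ≤ 1 := by decide
        exact key _
      have hd' : |((τ.2.2 i : SignType) : ℤ) + d| ≤ ((r + 1 : ℕ) : ℤ) := by
        push_cast
        have := abs_add_le ((τ.2.2 i : SignType) : ℤ) d
        omega
      have := h.2 i _ hd'
      simp only [next]
      by_cases h0 : ((τ.2.2 i : SignType) : ℤ) + d = 0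
      · have e1 : c.head i + ((τ.2.2 i : SignType) : ℤ) + d = c.head i := by omega
        have e2 : c'.head i + ((τ.2.2 i : SignType) : ℤ) + d = c'.head i := by omega
        rw [e1, e2, Function.update_self, Function.update_self]
      · have e1 : c.head i + ((τ.2.2 i : SignType) : ℤ) + d ≠ c.head i := by omega
        have e2 : c'.head i + ((τ.2.2 i : SignType) : ℤ) + d ≠ c'.head i := by omega
        rw [Function.update_of_ne e1, Function.update_of_ne e2, add_assoc, add_assoc]
        exact this
  · exact ⟨c', Or.inr ⟨h.halted_iff.1 hH, rfl⟩, h.mono (by omega)⟩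

lemma Near.run {t g : ℕ} {c c' c1 : M.Cfg} (h1 : M.SRun t g c c1) (h : M.Near t c c') :
    ∃ g' c1', M.SRun t g' c' c1' ∧ M.Near 0 c1 c1' := by
  induction h1 generalizing c' with
  | refl c => exact ⟨0, c', .refl c', h⟩
  | @det t g c c1 c2 h1 h2 _ ih =>
    obtain ⟨c1', hs, hn⟩ := h.step h1
    obtain ⟨g', c2', hr, hn'⟩ := ih hn
    by_cases hb : M.Branching c'
    · exact ⟨g' + 1, c2', .nondet hs hb hr, hn'⟩
    · exact ⟨g', c2', .det hs hb hr, hn'⟩
  | @nondet t g c c1 c2 h1 h2 _ ih =>
    obtain ⟨c1', hs, hn⟩ := h.step h1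
    obtain ⟨g', c2', hr, hn'⟩ := ih hn
    by_cases hb : M.Branching c'
    · exact ⟨g' + 1, c2', .nondet hs hb hr, hn'⟩
    · exact ⟨g', c2', .det hs hb hr, hn'⟩

variable (M)

/-- acceptance within exactly `t` steps (idling allowed) -/
def AccFrom (t : ℕ) (c : M.Cfg) : Prop := ∃ g c', M.SRun t g c c' ∧ M.Accepting c'

variable {M}

lemma Near.accFrom {t : ℕ} {c c' : M.Cfg} (h : M.Near t c c') (hc : M.AccFrom t c) :
    M.AccFrom t c' := by
  obtain ⟨g, c1, hr, ha⟩ := hc
  obtain ⟨g', c1', hr', hn⟩ := Near.run hr h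
  exact ⟨g', c1', hr', hn.accepting ha⟩

variable (M)

/-! ### The unread part of the input -/

/-- Write `y` on the input tape from cell `p` on. -/
def paste (p : ℕ) (y : List α) (c : M.Cfg) : M.Cfg where
  state := c.state
  tape := fun i z => if i = 0 ∧ (p : ℤ) ≤ z then (y[(z - p).toNat]?).map Sum.inl else c.tape i z
  head := c.head

lemma paste_init (u y : List α) : M.paste u.length y (M.init u) = M.init (u ++ y) := by
  ext i z
  · rfl
  · simp only [paste, init]
    by_cases hi : i = 0
    · by_cases hz : (u.length : ℤ) ≤ z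
      · have h0 : 0 ≤ z := by omega
        have e : (z - (u.length : ℤ)).toNat = z.toNat - u.length := by omega
        rw [if_pos ⟨hi, hz⟩, if_pos ⟨hi, h0⟩, List.getElem?_append_right (by omega), e]
      · rw [if_neg (fun h => hz h.2)]
        by_cases h0 : 0 ≤ z
        · rw [if_pos ⟨hi, h0⟩, if_pos ⟨hi, h0⟩, List.getElem?_append_left (by omega)]
        · rw [if_neg (fun h => h0 h.2), if_neg (fun h => h0 h.2)]
    · rw [if_neg (fun h => hi h.1), if_neg (fun h => hi h.1), if_neg (fun h => hi h.1)]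
  · rfl

variable {M}

lemma scan_paste {p : ℕ} {y : List α} {c : M.Cfg} (h : c.head 0 < p) :
    M.scan (M.paste p y c) = M.scan c := by
  funext i
  simp only [scan, paste]
  by_cases hi : i = 0
  · subst hi
    rw [if_neg]
    rintro ⟨_, h2⟩
    omega
  · rw [if_neg (fun h => hi h.1)]

lemma paste_next {p : ℕ} {y : List α} {c : M.Cfg} (h : c.head 0 < p) (τ : M.Act) :
    M.paste p y (M.next c τ) = M.next (M.paste p y c) τ := by
  ext i z
  · rfl
  · simp only [paste, next]
    by_cases hi : i = 0
    · subst hi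
      by_cases hz : (p : ℤ) ≤ z
      · have hne : z ≠ c.head 0 := by omega
        simp [hz, Function.update_of_ne hne]
      · by_cases hz' : z = c.head 0
        · subst hz'
          simp [hz]
        · simp [hz, Function.update_of_ne hz']
    · simp [hi]
  · rfl

lemma halted_paste {p : ℕ} {y : List α} {c : M.Cfg} (h : c.head 0 < p) :
    M.Halted (M.paste p y c) ↔ M.Halted c := by
  rw [M.halted_iff, M.halted_iff, scan_paste h]
  rfl

lemma branching_paste {p : ℕ} {y : List α} {c : M.Cfg} (h : c.head 0 < p) :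
    M.Branching (M.paste p y c) ↔ M.Branching c := by
  rw [M.branching_iff, M.branching_iff, scan_paste h]
  rfl

lemma sstep_paste {p : ℕ} {y : List α} {c c' : M.Cfg} (h : c.head 0 < p)
    (hs : M.SStep (M.paste p y c) c') : ∃ c1, M.SStep c c1 ∧ c' = M.paste p y c1 := by
  rcases hs with ⟨τ, hτ, rfl⟩ | ⟨hH, rfl⟩
  · refine ⟨M.next c τ, Or.inl ⟨τ, ?_, rfl⟩, (paste_next h τ).symm⟩
    rw [scan_paste h] at hτ
    exact hτ
  · exact ⟨c, Or.inr ⟨(halted_paste h).1 hH, rfl⟩, rfl⟩

lemma sstep_paste' {p : ℕ} {y : List α} {c c' : M.Cfg} (h : c.head 0 < p)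
    (hs : M.SStep c c') : M.SStep (M.paste p y c) (M.paste p y c') := by
  rcases hs with ⟨τ, hτ, rfl⟩ | ⟨hH, rfl⟩
  · refine Or.inl ⟨τ, ?_, paste_next h τ⟩
    rw [scan_paste h]
    exact hτ
  · exact Or.inr ⟨(halted_paste h).2 hH, rfl⟩

lemma head_sstep {c c' : M.Cfg} (h : M.SStep c c') (i : Fin (M.k + 1)) :
    c'.head i ≤ c.head i + 1 := by
  rcases h with ⟨τ, _, rfl⟩ | ⟨_, rfl⟩
  · simp only [next]
    have key : ∀ a : SignType, (a : ℤ) ≤ 1 := by decide
    have := key (τ.2.2 i)
    omega
  · omega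

lemma head_srun {t g : ℕ} {c c' : M.Cfg} (h : M.SRun t g c c') (i : Fin (M.k + 1)) :
    c'.head i ≤ c.head i + t := by
  induction h with
  | refl c => simp
  | det h1 _ _ ih => have := head_sstep h1 i; push_cast; omega
  | nondet h1 _ _ ih => have := head_sstep h1 i; push_cast; omega

lemma srun_paste {p t g : ℕ} {y : List α} {c c' : M.Cfg} (h : c.head 0 + t ≤ p)
    (hs : M.SRun t g (M.paste p y c) c') : ∃ c1, M.SRun t g c c1 ∧ c' = M.paste p y c1 := by
  induction t generalizing g c with
  | zero => cases hs; exact ⟨c, .refl c, rfl⟩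
  | succ t ih =>
    push_cast at h
    have hlt : c.head 0 < p := by omega
    cases hs with
    | det h1 h2 h3 =>
      obtain ⟨c1, hc1, rfl⟩ := sstep_paste hlt h1
      have := head_sstep hc1 0
      obtain ⟨c2, hc2, rfl⟩ := ih (by omega) h3
      exact ⟨c2, .det hc1 (fun hb => h2 ((branching_paste hlt).2 hb)) hc2, rfl⟩
    | nondet h1 h2 h3 =>
      obtain ⟨c1, hc1, rfl⟩ := sstep_paste hlt h1
      have := head_sstep hc1 0
      obtain ⟨c2, hc2, rfl⟩ := ih (by omega) h3
      exact ⟨c2, .nondet hc1 ((branching_paste hlt).1 h2) hc2, rfl⟩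

lemma srun_paste' {p t g : ℕ} {y : List α} {c c' : M.Cfg} (h : c.head 0 + t ≤ p)
    (hs : M.SRun t g c c') : M.SRun t g (M.paste p y c) (M.paste p y c') := by
  induction hs with
  | refl c => exact .refl _
  | @det t g c c1 c2 h1 h2 _ ih =>
    push_cast at h
    have hlt : c.head 0 < p := by omega
    have := head_sstep h1 0
    exact .det (sstep_paste' hlt h1) (fun hb => h2 ((branching_paste hlt).1 hb)) (ih (by omega))
  | @nondet t g c c1 c2 h1 h2 _ ih =>
    push_cast at h
    have hlt : c.head 0 < p := by omega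
    have := head_sstep h1 0
    exact .nondet (sstep_paste' hlt h1) ((branching_paste hlt).2 h2) (ih (by omega))

/-! ### Local data -/

variable (M)

/-- The local data: state, windows, and the position of cell `p` relative to the input head. -/
abbrev Loc (r : ℕ) : Type :=
  M.Q × (Fin (M.k + 1) → Fin (2 * r + 1) → Option (α ⊕ M.Γ)) × Fin (r + 2)

/-- Extract the local data. -/
def loc (p r : ℕ) (c : M.Cfg) : M.Loc r :=
  (c.state, fun i d => c.tape i (c.head i + (d.val : ℤ) - r),
    ⟨min (p - c.head 0).toNat (r + 1), by omega⟩)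

variable {M}

lemma near_of_loc {p r : ℕ} {y : List α} {c c' : M.Cfg} (h : M.loc p r c = M.loc p r c')
    (hc : c.head 0 ≤ p) (hc' : c'.head 0 ≤ p) :
    M.Near r (M.paste p y c) (M.paste p y c') := by
  have h1 : c.state = c'.state := congrArg Prod.fst h
  have h2 : ∀ i, ∀ d : Fin (2 * r + 1), c.tape i (c.head i + (d.val : ℤ) - r) =
      c'.tape i (c'.head i + (d.val : ℤ) - r) := fun i d =>
    congrFun (congrFun (congrArg (fun q => q.2.1) h) i) d
  have h3 : min (p - c.head 0).toNat (r + 1) = min (p - c'.head 0).toNat (r + 1) :=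
    congrArg (fun q => (q.2.2 : Fin (r + 2)).val) h
  refine ⟨h1, fun i d hd => ?_⟩
  have hw : c.tape i (c.head i + d) = c'.tape i (c'.head i + d) := by
    rw [abs_le] at hd
    have := h2 i ⟨(d + r).toNat, by omega⟩
    have e : (((d + r).toNat : ℕ) : ℤ) = d + r := Int.toNat_of_nonneg (by omega)
    simp only [e] at this
    rw [show c.head i + (d + r) - r = c.head i + d by ring,
      show c'.head i + (d + r) - r = c'.head i + d by ring] at this
    exact this
  rw [abs_le] at hd
  simp only [paste]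
  by_cases hi : i = 0
  · subst hi
    by_cases hp : (p : ℤ) ≤ c.head 0 + d
    · have hp' : (p : ℤ) ≤ c'.head 0 + d := by omega
      have he : c.head 0 = c'.head 0 := by omega
      rw [if_pos ⟨rfl, hp⟩, if_pos ⟨rfl, hp'⟩, he]
    · have hp' : ¬ (p : ℤ) ≤ c'.head 0 + d := by omega
      rw [if_neg (fun h => hp h.2), if_neg (fun h => hp' h.2)]
      exact hw
  · rw [if_neg (fun h => hi h.1), if_neg (fun h => hi h.1)]
    exact hw

lemma finite_loc [Finite α] (M : NTM α) (r : ℕ) : Finite (M.Loc r) := by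
  have := M.finΓ
  have := M.finQ
  infer_instance

/-- The base of the exponential bound on the number of local data. -/
noncomputable def base (M : NTM α) : ℕ :=
  Nat.card M.Q * (Nat.card (Option (α ⊕ M.Γ)) ^ (2 * (M.k + 1))) * 2

lemma card_loc_le [Finite α] (M : NTM α) (r : ℕ) :
    Nat.card (M.Loc r) ≤ M.base ^ (r + 1) := by
  have := M.finΓ
  have := M.finQ
  have hq : 1 ≤ Nat.card M.Q := Nat.one_le_iff_ne_zero.2 (by
    have : Nonempty M.Q := ⟨M.start⟩
    exact Nat.card_ne_zero.2 ⟨this, inferInstance⟩)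
  have hs : 1 ≤ Nat.card (Option (α ⊕ M.Γ)) := Nat.one_le_iff_ne_zero.2
    (Nat.card_ne_zero.2 ⟨⟨none⟩, inferInstance⟩)
  have h1 : Nat.card (M.Loc r) = Nat.card M.Q *
      (((Nat.card (Option (α ⊕ M.Γ))) ^ (2 * r + 1)) ^ (M.k + 1) * (r + 2)) := by
    rw [Nat.card_prod, Nat.card_prod, Nat.card_fun, Nat.card_fun]
    simp
  rw [h1, base, mul_pow, mul_pow, mul_assoc]
  refine Nat.mul_le_mul (Nat.le_self_pow (by omega) _) (Nat.mul_le_mul ?_ ?_)
  · rw [← pow_mul, ← pow_mul]
    refine Nat.pow_le_pow_right hs ?_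
    nlinarith
  · exact (Nat.lt_two_pow_self (n := r + 1))

end NTM

end Pool.Agent.Results.MP_18af55_lc.StrictLog




namespace Pool.Agent.Results.MP_18af55_lc.StrictLog

/-! ### The counting argument -/

lemma exists_good {V Λ : Type} [Fintype V] (k T : ℕ) (hV : 0 < Fintype.card V)
    (Sel : Λ → Set ((Fin k → V) × (Fin k → Bool))) (D : Fin k → V → Bool) (R : Set Λ)
    (hfin : R.Finite) (hR : R.ncard ≤ T)
    (hcomp : ∀ a : Fin k → V, ∃ l ∈ R, (a, fun j => D j (a j)) ∈ Sel l) :
    ∃ l ∈ R, Fintype.card V ^ k ≤ T * {a | (a, fun j => D j (a j)) ∈ Sel l}.ncard := by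
  classical
  by_contra hcon
  push Not at hcon
  have hVk : 0 < Fintype.card V ^ k := Nat.pow_pos hV
  have : Nonempty (Fin k → V) := by
    have : Nonempty V := Fintype.card_pos_iff.1 hV
    infer_instance
  obtain ⟨l0, hl0, _⟩ := hcomp (Classical.arbitrary _)
  have hTpos : 0 < T := lt_of_lt_of_le ((Set.ncard_pos hfin).2 ⟨l0, hl0⟩) hR
  have h1 : Fintype.card V ^ k ≤
      ∑ l ∈ hfin.toFinset, {a | (a, fun j => D j (a j)) ∈ Sel l}.ncard := by
    have huniv : (Set.univ : Set (Fin k → V)) ⊆
        ⋃ l ∈ hfin.toFinset, {a | (a, fun j => D j (a j)) ∈ Sel l} := by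
      intro a _
      obtain ⟨l, hl, ha⟩ := hcomp a
      simp only [Set.mem_iUnion]
      exact ⟨l, by simpa using hl, ha⟩
    calc Fintype.card V ^ k = (Set.univ : Set (Fin k → V)).ncard := by
          rw [Set.ncard_univ, Nat.card_eq_fintype_card]; simp
      _ ≤ (⋃ l ∈ hfin.toFinset, {a | (a, fun j => D j (a j)) ∈ Sel l}).ncard :=
          Set.ncard_le_ncard huniv (Set.toFinite _)
      _ ≤ _ := Finset.set_ncard_biUnion_le _ _
  have h2 : T * Fintype.card V ^ k ≤ ∑ l ∈ hfin.toFinset, (Fintype.card V ^ k - 1) := by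
    calc T * Fintype.card V ^ k
        ≤ T * ∑ l ∈ hfin.toFinset, {a | (a, fun j => D j (a j)) ∈ Sel l}.ncard :=
          Nat.mul_le_mul_left _ h1
      _ = ∑ l ∈ hfin.toFinset, T * {a | (a, fun j => D j (a j)) ∈ Sel l}.ncard :=
          Finset.mul_sum _ _ _
      _ ≤ _ := by
          refine Finset.sum_le_sum fun l hl => ?_
          have := hcon l (by simpa using hl)
          omega
  rw [Finset.sum_const, smul_eq_mul, ← Set.ncard_eq_toFinset_card R hfin] at h2
  have h3 : R.ncard * (Fintype.card V ^ k - 1) ≤ T * (Fintype.card V ^ k - 1) :=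
    Nat.mul_le_mul_right _ hR
  have h4 : T * (Fintype.card V ^ k - 1) < T * Fintype.card V ^ k :=
    Nat.mul_lt_mul_of_pos_left (by omega) hTpos
  omega

lemma sum_ge {k M T : ℕ} (hM : 0 < M) (u : Fin k → ℕ) (hu : M ^ k ≤ T * ∏ j, u j)
    (hT : (T : ℝ) ≤ Real.exp (k / 2)) : k * M ≤ 2 * ∑ j, u j := by
  have hM' : (0 : ℝ) < M := by exact_mod_cast hM
  have h1 : (M : ℝ) ^ k ≤ T * ∏ j, (u j : ℝ) := by exact_mod_cast hu
  have h2 : ∏ j, ((u j : ℝ) / M) ≤ Real.exp (∑ j, ((u j : ℝ) / M - 1)) := by
    rw [Real.exp_sum]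
    refine Finset.prod_le_prod (fun j _ => by positivity) fun j _ => ?_
    have := Real.add_one_le_exp ((u j : ℝ) / M - 1)
    linarith
  have h3 : ∏ j, ((u j : ℝ) / M) = (∏ j, (u j : ℝ)) / (M : ℝ) ^ k := by
    rw [Finset.prod_div_distrib]; simp
  rw [h3] at h2
  have h4 : (1 : ℝ) ≤ T * Real.exp (∑ j, ((u j : ℝ) / M - 1)) := by
    have hT0 : (0 : ℝ) ≤ T := by positivity
    calc (1 : ℝ) ≤ T * ((∏ j, (u j : ℝ)) / (M : ℝ) ^ k) := by
          rw [mul_div_assoc', le_div_iff₀ (by positivity), one_mul]; exact h1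
      _ ≤ _ := mul_le_mul_of_nonneg_left h2 hT0
  have h5 : (1 : ℝ) ≤ Real.exp (k / 2 + ∑ j, ((u j : ℝ) / M - 1)) := by
    rw [Real.exp_add]
    exact h4.trans (mul_le_mul_of_nonneg_right hT (Real.exp_pos _).le)
  rw [Real.one_le_exp_iff] at h5
  rw [Finset.sum_sub_distrib, ← Finset.sum_div] at h5
  simp only [Finset.sum_const, Finset.card_univ, Fintype.card_fin, nsmul_eq_mul, mul_one] at h5
  have h6 : (k : ℝ) / 2 ≤ (∑ j, (u j : ℝ)) / M := by linarith
  rw [le_div_iff₀ hM'] at h6
  have h7 : (k : ℝ) * M ≤ 2 * ∑ j, (u j : ℝ) := by linarith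
  exact_mod_cast h7

lemma counting {V Λ : Type} [Fintype V] [Finite Λ] (k T : ℕ) (hV : 0 < Fintype.card V)
    (Sel : Λ → Set ((Fin k → V) × (Fin k → Bool))) (R : (Fin k → V → Bool) → Set Λ)
    (hR : ∀ D, (R D).ncard ≤ T)
    (hcomp : ∀ D, ∀ a : Fin k → V, ∃ l ∈ R D, (a, fun j => D j (a j)) ∈ Sel l)
    (hsound : ∀ D, ∀ l ∈ R D, ∀ a β, (a, β) ∈ Sel l → ∀ j, β j = D j (a j))
    (hT : (T : ℝ) ≤ Real.exp (k / 2)) :
    2 ^ (k * Fintype.card V) ≤ (Nat.card Λ) ^ 2 := by
  classical
  have := Fintype.ofFinite Λ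
  choose f hf1 hf2 using fun D =>
    exists_good k T hV Sel D (R D) (Set.toFinite _) (hR D) (hcomp D)
  -- the points about which `l` knows something
  let U : Λ → Finset (Fin k × V) := fun l =>
    Finset.univ.filter fun p => ∃ a β, (a, β) ∈ Sel l ∧ a p.1 = p.2
  have hU : ∀ D, k * Fintype.card V ≤ 2 * (U (f D)).card := by
    intro D
    have h1 : {a | (a, fun j => D j (a j)) ∈ Sel (f D)}.ncard ≤
        ∏ j, ((U (f D)).filter fun p => p.1 = j).card := by
      have hsub : {a | (a, fun j => D j (a j)) ∈ Sel (f D)} ⊆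
          ((Fintype.piFinset fun j => ((U (f D)).filter fun p => p.1 = j).image Prod.snd :
            Finset (Fin k → V)) : Set (Fin k → V)) := by
        intro a ha
        simp only [Finset.mem_coe, Fintype.mem_piFinset, Finset.mem_image, Finset.mem_filter]
        intro j
        refine ⟨(j, a j), ⟨?_, rfl⟩, rfl⟩
        simp only [U, Finset.mem_filter, Finset.mem_univ, true_and]
        exact ⟨a, _, ha, rfl⟩
      calc _ ≤ _ := Set.ncard_le_ncard hsub (Finset.finite_toSet _)
        _ = ∏ j, (((U (f D)).filter fun p => p.1 = j).image Prod.snd).card := by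
            rw [Set.ncard_coe_finset, Fintype.card_piFinset]
        _ ≤ _ := Finset.prod_le_prod' fun j _ => Finset.card_image_le
    have h2 := sum_ge hV (fun j => ((U (f D)).filter fun p => p.1 = j).card)
      ((hf2 D).trans (Nat.mul_le_mul_left _ h1)) hT
    have h3 : ∑ j, ((U (f D)).filter fun p => p.1 = j).card = (U (f D)).card := by
      rw [← Finset.card_eq_sum_card_fiberwise (f := Prod.fst) (t := Finset.univ)]
      intro x _; simp
    rw [h3] at h2
    exact h2
  -- the fibres of `f`
  have hfib : ∀ l, (Finset.univ.filter fun D => f D = l).card ^ 2 ≤ 2 ^ (k * Fintype.card V) := by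
    intro l
    by_cases hne : ∃ D, f D = l
    · obtain ⟨D0, hD0⟩ := hne
      have hinj : (Finset.univ.filter fun D => f D = l).card ≤
          (Finset.univ : Finset ({p // p ∉ U l} → Bool)).card := by
        refine Finset.card_le_card_of_injOn
          (fun D => fun p : {p // p ∉ U l} => D p.1.1 p.1.2) (fun _ _ => Finset.mem_coe.2 (Finset.mem_univ _)) ?_
        intro D hD D' hD' hDD'
        simp only [Finset.coe_filter, Finset.mem_univ, true_and] at hD hD'
        have hD1 : f D = l := hD
        have hD1' : f D' = l := hD'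
        funext j v
        by_cases hjv : (j, v) ∈ U l
        · simp only [U, Finset.mem_filter, Finset.mem_univ, true_and] at hjv
          obtain ⟨a, β, hab, hav⟩ := hjv
          have e1 := hsound D l (hD1 ▸ hf1 D) a β hab j
          have e2 := hsound D' l (hD1' ▸ hf1 D') a β hab j
          rw [← hav, ← e1, ← e2]
        · exact congrFun hDD' ⟨(j, v), hjv⟩
      have hcard : (Finset.univ : Finset ({p // p ∉ U l} → Bool)).card =
          2 ^ (k * Fintype.card V - (U l).card) := by
        rw [Finset.card_univ, Fintype.card_fun, Fintype.card_bool, Fintype.card_subtype_compl]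
        simp
      rw [hcard] at hinj
      have hUl := hU D0
      rw [hD0] at hUl
      calc _ ≤ (2 ^ (k * Fintype.card V - (U l).card)) ^ 2 := Nat.pow_le_pow_left hinj 2
        _ = 2 ^ ((k * Fintype.card V - (U l).card) * 2) := by rw [pow_mul]
        _ ≤ _ := Nat.pow_le_pow_right (by norm_num) (by omega)
    · have : (Finset.univ.filter fun D => f D = l) = ∅ := by
        rw [Finset.filter_eq_empty_iff]
        intro D _ hD
        exact hne ⟨D, hD⟩
      rw [this]
      simp
  have htot : (2 : ℕ) ^ (k * Fintype.card V) =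
      ∑ l, (Finset.univ.filter fun D => f D = l).card := by
    rw [← Finset.card_eq_sum_card_fiberwise (f := f) (t := Finset.univ) (by intro x _; simp)]
    rw [Finset.card_univ, Fintype.card_fun, Fintype.card_fun, Fintype.card_bool,
      Fintype.card_fin, ← pow_mul, mul_comm]
  -- conclude
  have hreal : ((2 : ℝ) ^ (k * Fintype.card V)) ≤ (Nat.card Λ : ℝ) *
      Real.sqrt ((2 : ℝ) ^ (k * Fintype.card V)) := by
    calc ((2 : ℝ) ^ (k * Fintype.card V))
        = ∑ l, ((Finset.univ.filter fun D => f D = l).card : ℝ) := by exact_mod_cast htot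
      _ ≤ ∑ l : Λ, Real.sqrt ((2 : ℝ) ^ (k * Fintype.card V)) := by
          refine Finset.sum_le_sum fun l _ => ?_
          refine Real.le_sqrt_of_sq_le ?_
          exact_mod_cast hfib l
      _ = _ := by simp [Nat.card_eq_fintype_card]
  have hpos : (0 : ℝ) < Real.sqrt ((2 : ℝ) ^ (k * Fintype.card V)) := by positivity
  have h5 : Real.sqrt ((2 : ℝ) ^ (k * Fintype.card V)) ≤ Nat.card Λ := by
    have hsq : (2 : ℝ) ^ (k * Fintype.card V) = Real.sqrt ((2 : ℝ) ^ (k * Fintype.card V)) *
      Real.sqrt ((2 : ℝ) ^ (k * Fintype.card V)) := (Real.mul_self_sqrt (by positivity)).symm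
    nth_rewrite 1 [hsq] at hreal
    exact le_of_mul_le_mul_right hreal hpos
  have h6 : ((2 : ℝ) ^ (k * Fintype.card V)) ≤ (Nat.card Λ : ℝ) ^ 2 := by
    rw [← Real.sqrt_le_left (by positivity)] 
    exact h5
  exact_mod_cast h6

end Pool.Agent.Results.MP_18af55_lc.StrictLog

namespace Pool.Agent.Results.MP_18af55_lc.StrictLog

/-! ### The witness language -/

/-- States of the witness machine. -/
inductive St | c0 | c1 | c2 | s0 | s1 | s2 | p | dead
  deriving DecidableEq

instance : Finite St := by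
  refine Finite.of_injective (fun q : St => (match q with
    | .c0 => 0 | .c1 => 1 | .c2 => 2 | .s0 => 3 | .s1 => 4 | .s2 => 5 | .p => 6 | .dead => 7 :
    Fin 8)) ?_
  intro a b
  cases a <;> cases b <;> simp

/-- Abstract transitions of the witness machine on a state, a stack and an input bit. -/
def ATrans : St → List Bool → Bool → St → List Bool → Prop
  | .c0, st, false, q', st' => q' = .c1 ∧ st' = false :: st
  | .c0, st, true, q', st' => q' = .c2 ∧ st' = true :: st
  | .c1, st, b, q', st' => q' = .c0 ∧ st' = b :: st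
  | .c2, st, false, q', st' => (q' = .c0 ∨ q' = .s0) ∧ st' = false :: st
  | .c2, _, true, _, _ => False
  | .s0, st, false, q', st' => q' = .s1 ∧ st' = st
  | .s0, st, true, q', st' => q' = .s2 ∧ st' = st
  | .s1, st, _, q', st' => q' = .s0 ∧ st' = st
  | .s2, st, false, q', st' => (q' = .c0 ∨ q' = .s0) ∧ st' = st
  | .s2, st, true, q', st' => q' = .p ∧ st' = st
  | .p, st, b, q', st' => q' = .p ∧ st = b :: st'
  | .dead, _, _, _, _ => False

/-- Abstract acceptance. -/
def Acc {α : Type} (e : Bool → α) : St → List Bool → List α → Prop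
  | q, st, [] => q = .p ∧ st = []
  | q, st, a :: rest => ∃ b, e b = a ∧ ∃ q' st', ATrans q st b q' st' ∧ Acc e q' st' rest

section AccLemmas

variable {α : Type} (e : Bool → α) (he : Function.Injective e)
include he

lemma acc_p (st : List Bool) (y : List Bool) : Acc e .p st (y.map e) ↔ y = st := by
  induction y generalizing st with
  | nil => simp [Acc, eq_comm]
  | cons b y ih =>
    simp only [List.map_cons, Acc, ATrans]
    constructor
    · rintro ⟨b', hb, q', st', ⟨rfl, rfl⟩, h⟩
      rw [ih] at h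
      rw [he hb, h]
    · rintro rfl
      exact ⟨b, rfl, .p, y, ⟨rfl, rfl⟩, (ih y).2 rfl⟩

/-- Encoding of a word. -/
def encBits : List Bool → List Bool
  | [] => []
  | b :: w => false :: b :: encBits w

/-- A block. -/
def block (w : List Bool) : List Bool := encBits w ++ [true, false]

omit he in
lemma length_block (w : List Bool) : (block w).length = 2 * w.length + 2 := by
  unfold block
  induction w with
  | nil => simp [encBits]
  | cons b w ih => simp [encBits] at ih ⊢; omega

omit he in
lemma block_append_inj {w w' r r' : List Bool} (h : block w ++ r = block w' ++ r') :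
    w = w' ∧ r = r' := by
  induction w generalizing w' with
  | nil =>
    cases w' with
    | nil => simpa [block, encBits] using h
    | cons b' w' => simp [block, encBits] at h
  | cons b w ih =>
    cases w' with
    | nil => simp [block, encBits] at h
    | cons b' w' =>
      simp only [block, encBits, List.cons_append, List.cons.injEq, true_and] at h
      obtain ⟨h1, h2⟩ := ih (w' := w') (by simpa [block] using h.2)
      exact ⟨by rw [h.1, h1], h2⟩

omit he in
lemma flatMap_block_inj {z z' : List (List Bool)} (h : z.flatMap block = z'.flatMap block) :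
    z = z' := by
  induction z generalizing z' with
  | nil =>
    cases z' with
    | nil => rfl
    | cons w' z' =>
      have := congrArg List.length h
      simp only [List.flatMap_nil, List.flatMap_cons, List.length_append, length_block,
        List.length_nil] at this
      omega
  | cons w z ih =>
    cases z' with
    | nil =>
      have := congrArg List.length h
      simp only [List.flatMap_nil, List.flatMap_cons, List.length_append, length_block,
        List.length_nil] at this
      omega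
    | cons w' z' =>
      simp only [List.flatMap_cons] at h
      obtain ⟨h1, h2⟩ := block_append_inj h
      rw [h1, ih h2]

lemma acc_c0_block (w : List Bool) (st : List Bool) (rest : List α) :
    Acc e .c0 st ((block w).map e ++ rest) ↔
      Acc e .c0 ((block w).reverse ++ st) rest ∨ Acc e .s0 ((block w).reverse ++ st) rest := by
  induction w generalizing st with
  | nil =>
    simp only [block, encBits, List.nil_append, List.map_cons, List.map_nil, List.cons_append,
      Acc]
    constructor
    · rintro ⟨b, hb, q, st', h1, b', hb', q', st'', h2, h3⟩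
      rw [he hb] at h1
      rw [he hb'] at h2
      obtain ⟨rfl, rfl⟩ := h1
      obtain ⟨rfl | rfl, rfl⟩ := h2
      · left; simpa using h3
      · right; simpa using h3
    · rintro (h | h)
      · exact ⟨true, rfl, .c2, true :: st, ⟨rfl, rfl⟩, false, rfl, .c0, false :: true :: st,
          ⟨Or.inl rfl, rfl⟩, by simpa using h⟩
      · exact ⟨true, rfl, .c2, true :: st, ⟨rfl, rfl⟩, false, rfl, .s0, false :: true :: st,
          ⟨Or.inr rfl, rfl⟩, by simpa using h⟩
  | cons b w ih =>
    have key : Acc e .c0 st ((block (b :: w)).map e ++ rest) ↔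
        Acc e .c0 (b :: false :: st) ((block w).map e ++ rest) := by
      simp only [block, encBits, List.map_cons, List.cons_append, Acc]
      constructor
      · rintro ⟨b1, hb, q, st', h1, b', hb', q', st'', h2, h3⟩
        rw [he hb] at h1
        rw [he hb'] at h2
        obtain ⟨rfl, rfl⟩ := h1
        obtain ⟨rfl, rfl⟩ := h2
        exact h3
      · intro h
        exact ⟨false, rfl, .c1, false :: st, ⟨rfl, rfl⟩, b, rfl, .c0, b :: false :: st,
          ⟨rfl, rfl⟩, h⟩
    rw [key, ih]
    simp [block, encBits]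

lemma acc_s0_block (w : List Bool) (st : List Bool) (rest : List α) :
    Acc e .s0 st ((block w).map e ++ rest) ↔ Acc e .c0 st rest ∨ Acc e .s0 st rest := by
  induction w with
  | nil =>
    simp only [block, encBits, List.nil_append, List.map_cons, List.map_nil, List.cons_append,
      Acc]
    constructor
    · rintro ⟨b, hb, q, st', h1, b', hb', q', st'', h2, h3⟩
      rw [he hb] at h1
      rw [he hb'] at h2
      obtain ⟨rfl, rfl⟩ := h1
      obtain ⟨rfl | rfl, rfl⟩ := h2
      · left; exact h3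
      · right; exact h3
    · rintro (h | h)
      · exact ⟨true, rfl, .s2, st, ⟨rfl, rfl⟩, false, rfl, .c0, st, ⟨Or.inl rfl, rfl⟩, h⟩
      · exact ⟨true, rfl, .s2, st, ⟨rfl, rfl⟩, false, rfl, .s0, st, ⟨Or.inr rfl, rfl⟩, h⟩
  | cons b w ih =>
    rw [← ih]
    simp only [block, encBits, List.map_cons, List.cons_append, Acc]
    constructor
    · rintro ⟨b1, hb, q, st', h1, b', hb', q', st'', h2, h3⟩
      rw [he hb] at h1
      obtain ⟨rfl, rfl⟩ := h1
      obtain ⟨rfl, rfl⟩ := h2
      exact h3
    · intro h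
      exact ⟨false, rfl, .s1, st, ⟨rfl, rfl⟩, b, rfl, .s0, st, ⟨rfl, rfl⟩, h⟩

lemma acc_c0_end (st : List Bool) (rest : List α) :
    ¬ Acc e .c0 st (([true, true] : List Bool).map e ++ rest) := by
  simp only [List.map_cons, List.map_nil, List.cons_append, List.nil_append, Acc]
  rintro ⟨b, hb, q, st', h1, b', hb', q', st'', h2, h3⟩
  rw [he hb] at h1
  rw [he hb'] at h2
  obtain ⟨rfl, rfl⟩ := h1
  exact h2

lemma acc_s0_end (st : List Bool) (rest : List α) :
    Acc e .s0 st (([true, true] : List Bool).map e ++ rest) ↔ Acc e .p st rest := by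
  simp only [List.map_cons, List.map_nil, List.cons_append, List.nil_append, Acc]
  constructor
  · rintro ⟨b, hb, q, st', h1, b', hb', q', st'', h2, h3⟩
    rw [he hb] at h1
    rw [he hb'] at h2
    obtain ⟨rfl, rfl⟩ := h1
    obtain ⟨rfl, rfl⟩ := h2
    exact h3
  · intro h
    exact ⟨true, rfl, .s2, st, ⟨rfl, rfl⟩, true, rfl, .p, st, ⟨rfl, rfl⟩, h⟩

lemma acc_blocks (xs : List (List Bool)) (st : List Bool) (y : List Bool) :
    (Acc e .c0 st ((xs.flatMap block).map e ++ (([true, true] : List Bool).map e ++ y.map e)) ∨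
      Acc e .s0 st ((xs.flatMap block).map e ++ (([true, true] : List Bool).map e ++ y.map e))) ↔
    ∃ z : List (List Bool), z.Sublist xs ∧ y = (z.flatMap block).reverse ++ st := by
  induction xs generalizing st with
  | nil =>
    simp only [List.flatMap_nil, List.map_nil, List.nil_append]
    rw [acc_s0_end e he, acc_p e he]
    constructor
    · rintro (h | h)
      · exact absurd h (acc_c0_end e he _ _)
      · exact ⟨[], List.Sublist.refl _, by simpa using h⟩
    · rintro ⟨z, hz, hy⟩
      rw [List.sublist_nil] at hz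
      subst hz
      right; simpa using hy
  | cons w xs ih =>
    simp only [List.flatMap_cons, List.map_append]
    rw [List.append_assoc, acc_c0_block e he, acc_s0_block e he, ih, ih]
    constructor
    · rintro (⟨z, hz, hy⟩ | ⟨z, hz, hy⟩)
      · exact ⟨w :: z, hz.cons_cons w, by simp [hy]⟩
      · exact ⟨z, hz.cons w, hy⟩
    · rintro ⟨z, hz, hy⟩
      cases hz with
      | cons _ h => exact Or.inr ⟨z, h, hy⟩
      | cons_cons _ h => exact Or.inl ⟨_, h, by simp [hy]⟩

/-- The database word of a list of blocks. -/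
def dbWord (xs : List (List Bool)) : List Bool :=
  [true, false] ++ xs.flatMap block ++ [true, true]

/-- The query word of a list of blocks. -/
def qWord (z : List (List Bool)) : List Bool := (z.flatMap block).reverse

lemma acc_iff (xs z : List (List Bool)) :
    Acc e .s0 [] ((dbWord xs).map e ++ (qWord z).map e) ↔ z.Sublist xs := by
  have h0 : (dbWord xs).map e ++ (qWord z).map e = (block []).map e ++
      ((xs.flatMap block).map e ++ (([true, true] : List Bool).map e ++ (qWord z).map e)) := by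
    simp [dbWord, block, encBits]
  rw [h0, acc_s0_block e he, acc_blocks e he]
  constructor
  · rintro ⟨z', hz', hy⟩
    simp only [qWord, List.append_nil, List.reverse_inj] at hy
    rw [flatMap_block_inj hy]
    exact hz'
  · intro h
    exact ⟨z, h, by simp [qWord]⟩

end AccLemmas

/-! ### Segments -/

lemma sublist_marker {W : Type} {mk : W} {p q z x : List W} (hp : mk ∉ p)
    (hq : mk ∉ q) (hcount : ∀ [DecidableEq W], x.count mk ≤ z.count mk)
    (h : (p ++ mk :: z).Sublist (q ++ mk :: x)) : p.Sublist q ∧ z.Sublist x := by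
  classical
  rw [List.sublist_append_iff] at h
  obtain ⟨l1, l2, he, h1, h2⟩ := h
  have hmk : mk ∉ l1 := fun hm => hq (h1.subset hm)
  rw [List.append_eq_append_iff] at he
  rcases he with ⟨a, ha1, ha2⟩ | ⟨a, ha1, ha2⟩
  · -- l1 = p ++ a, mk :: z = a ++ l2
    cases a with
    | nil =>
      simp only [List.append_nil] at ha1
      simp only [List.nil_append] at ha2
      subst ha1
      rw [← ha2] at h2
      exact ⟨h1, (List.cons_sublist_cons.1 h2)⟩
    | cons a0 a =>
      simp only [List.cons_append, List.cons.injEq] at ha2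
      exfalso
      apply hmk
      rw [ha1, ha2.1]
      simp
  · -- p = l1 ++ a, l2 = a ++ mk :: z
    cases a with
    | nil =>
      simp only [List.append_nil] at ha1
      simp only [List.nil_append] at ha2
      subst ha1
      rw [ha2] at h2
      exact ⟨h1, (List.cons_sublist_cons.1 h2)⟩
    | cons a0 a =>
      exfalso
      have hne : a0 ≠ mk := by
        rintro rfl
        apply hp
        rw [ha1]; simp
      rw [ha2] at h2
      have h3 : ((a0 :: a) ++ mk :: z).Sublist x := by
        cases h2 with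
        | cons _ h => exact h
        | cons_cons _ h => exact absurd rfl hne
      have := h3.count_le mk
      simp only [List.count_append, List.count_cons_self] at this
      have := hcount
      omega

lemma count_segments {W J : Type} [DecidableEq W] {mk : W} (js : List J) (p : J → List W)
    (hp : ∀ j, mk ∉ p j) : (js.flatMap fun j => p j ++ [mk]).count mk = js.length := by
  induction js with
  | nil => simp
  | cons j js ih =>
    rw [List.flatMap_cons, List.count_append, ih, List.count_append,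
      List.count_eq_zero_of_not_mem (hp j)]
    simp [Nat.add_comm]

lemma sublist_segments {W J : Type} {mk : W} (js : List J) (p q : J → List W)
    (hp : ∀ j, mk ∉ p j) (hq : ∀ j, mk ∉ q j)
    (h : (js.flatMap fun j => p j ++ [mk]).Sublist (js.flatMap fun j => q j ++ [mk])) :
    ∀ j ∈ js, (p j).Sublist (q j) := by
  induction js with
  | nil => simp
  | cons j js ih =>
    simp only [List.flatMap_cons, List.append_assoc, List.singleton_append] at h
    have := sublist_marker (hp j) (hq j)
      (fun {_} => by rw [count_segments js p hp, count_segments js q hq]) h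
    intro i hi
    rcases List.mem_cons.1 hi with rfl | hi
    · exact this.1
    · exact ih this.2 i hi

lemma segments_sublist {W J : Type} {mk : W} (js : List J) (p q : J → List W)
    (h : ∀ j, (p j).Sublist (q j)) :
    (js.flatMap fun j => p j ++ [mk]).Sublist (js.flatMap fun j => q j ++ [mk]) := by
  induction js with
  | nil => simp
  | cons j js ih =>
    simp only [List.flatMap_cons]
    exact ((h j).append (List.Sublist.refl _)).append ih

/-- The blocks of the database `D`. -/
noncomputable def xsOf (k l : ℕ) (D : Fin k → (Fin l → Bool) → Bool) : List (List Bool) :=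
  (List.finRange k).flatMap fun j =>
    ((Finset.univ : Finset (Fin l → Bool)).toList.map fun v => D j v :: List.ofFn v) ++ [[]]

/-- The blocks of a query. -/
def zOf (k l : ℕ) (a : Fin k → Fin l → Bool) (β : Fin k → Bool) : List (List Bool) :=
  (List.finRange k).flatMap fun j => [β j :: List.ofFn (a j)] ++ [[]]

lemma zOf_sublist_iff (k l : ℕ) (D : Fin k → (Fin l → Bool) → Bool)
    (a : Fin k → Fin l → Bool) (β : Fin k → Bool) :
    (zOf k l a β).Sublist (xsOf k l D) ↔ ∀ j, β j = D j (a j) := by
  constructor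
  · intro h j
    have := sublist_segments (List.finRange k) (fun j => [β j :: List.ofFn (a j)])
      (fun j => (Finset.univ : Finset (Fin l → Bool)).toList.map fun v => D j v :: List.ofFn v)
      (mk := []) (by simp) (by simp) h j (List.mem_finRange j)
    rw [List.singleton_sublist, List.mem_map] at this
    obtain ⟨v, _, hv⟩ := this
    rw [List.cons.injEq] at hv
    have hva : v = a j := List.ofFn_injective hv.2
    rw [← hv.1, hva]
  · intro h
    refine segments_sublist _ _ _ fun j => ?_
    rw [List.singleton_sublist, List.mem_map]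
    exact ⟨a j, by simp, by rw [h j]⟩

lemma length_dbWord (k l : ℕ) (D : Fin k → (Fin l → Bool) → Bool) :
    (dbWord (xsOf k l D)).length = 4 + k * (2 ^ l * (2 * l + 4) + 2) := by
  have h1 : ∀ v : Fin l → Bool, ∀ j, (block (D j v :: List.ofFn v)).length = 2 * l + 4 := by
    intro v j
    rw [length_block]; simp; ring
  have h2 : ∀ j : Fin k, ((((Finset.univ : Finset (Fin l → Bool)).toList.map
      fun v => D j v :: List.ofFn v) ++ [[]]).flatMap block).length =
      2 ^ l * (2 * l + 4) + 2 := by
    intro j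
    rw [List.flatMap_append, List.length_append, List.length_flatMap, List.map_map]
    have : (List.length ∘ block) ∘ (fun v => D j v :: List.ofFn v) =
        fun _ : Fin l → Bool => 2 * l + 4 := by
      funext v; exact h1 v j
    simp only [Function.comp_def] at this ⊢
    rw [this]
    simp [length_block]
  unfold dbWord xsOf
  rw [List.length_append, List.length_append, List.flatMap_assoc, List.length_flatMap]
  simp only [h2]
  simp
  ring

lemma length_qWord (k l : ℕ) (a : Fin k → Fin l → Bool) (β : Fin k → Bool) :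
    (qWord (zOf k l a β)).length = k * (2 * l + 6) := by
  unfold qWord zOf
  rw [List.length_reverse, List.flatMap_assoc, List.length_flatMap]
  have : ∀ j : Fin k, (([β j :: List.ofFn (a j)] ++ [[]]).flatMap block).length = 2 * l + 6 := by
    intro j
    simp [length_block]
    ring
  simp only [this]
  simp

end Pool.Agent.Results.MP_18af55_lc.StrictLog

namespace Pool.Agent.Results.MP_18af55_lc.StrictLog

/-! ### The witness machine -/

section Machine

variable {α : Type} (e : Bool → α)

/-- Concrete transitions: `CTrans q s b q' w d` for state `q`, scanned work symbol `s`, input bit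
`b`, new state `q'`, written work symbol `w`, move `d` of the work head. -/
def CTrans : St → Option (α ⊕ Bool) → Bool → St → Option (α ⊕ Bool) → SignType → Prop
  | .c0, _, false, q', w, d => q' = .c1 ∧ w = some (.inr false) ∧ d = 1
  | .c0, _, true, q', w, d => q' = .c2 ∧ w = some (.inr true) ∧ d = 1
  | .c1, _, b, q', w, d => q' = .c0 ∧ w = some (.inr b) ∧ d = 1
  | .c2, _, false, q', w, d => (q' = .c0 ∨ q' = .s0) ∧ w = some (.inr false) ∧ d = 1
  | .c2, _, true, _, _, _ => False
  | .s0, s, false, q', w, d => q' = .s1 ∧ w = s ∧ d = 0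
  | .s0, s, true, q', w, d => q' = .s2 ∧ w = s ∧ d = 0
  | .s1, s, _, q', w, d => q' = .s0 ∧ w = s ∧ d = 0
  | .s2, s, false, q', w, d => (q' = .c0 ∨ q' = .s0) ∧ w = s ∧ d = 0
  | .s2, s, true, q', w, d => q' = .p ∧ w = s ∧ d = -1
  | .p, s, b, q', w, d => q' = .p ∧ s = some (.inr b) ∧ w = s ∧ d = -1
  | .dead, _, _, _, _, _ => False

/-- The witness machine: two tapes, the second one used as a stack. -/
@[reducible] def wM : NTM α where
  k := 1
  Γ := Bool
  finΓ := inferInstance
  Q := St
  finQ := inferInstance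
  start := .s0
  acc := {.p}
  δ := fun q r => {τ |
    (∃ b, r 0 = some (.inl (e b)) ∧ ∃ q' w d, CTrans q (r 1) b q' w d ∧
      τ = (q', ![r 0, w], ![1, d])) ∨
    (q = .p ∧ ¬ (r 0 = none ∧ r 1 = none) ∧
      ¬ (∃ b, r 0 = some (.inl (e b)) ∧ r 1 = some (.inr b)) ∧ τ = (.dead, r, ![0, 0]))}

/-- Offset of the top of the stack from the work head. -/
def off : St → ℤ
  | .p => 0
  | _ => 1

/-- The configuration `c` represents state `q`, stack `st` and remaining input `rest`. -/
def Rep (q : St) (st : List Bool) (rest : List α) (c : (wM e).Cfg) : Prop :=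
  c.state = q ∧ (∀ n : ℕ, c.tape 0 (c.head 0 + n) = (rest[n]?).map Sum.inl) ∧
    (∀ n : ℕ, c.tape 1 (c.head 1 - off q - n) = (st[n]?).map Sum.inr)

variable {e}

/-- The successor configuration. -/
def nxt (c : (wM e).Cfg) (q' : St) (w : Option (α ⊕ Bool)) (d : SignType) : (wM e).Cfg :=
  (wM e).next c (q', ![(wM e).scan c 0, w], ![1, d])

lemma nxt_state (c : (wM e).Cfg) (q' w d) : (nxt c q' w d).state = q' := rfl

lemma nxt_head0 (c : (wM e).Cfg) (q' w d) : (nxt c q' w d).head 0 = c.head 0 + 1 := by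
  simp [nxt, NTM.next]

lemma nxt_head1 (c : (wM e).Cfg) (q' w) (d : SignType) :
    (nxt c q' w d).head 1 = c.head 1 + (d : ℤ) := by
  simp [nxt, NTM.next]

lemma nxt_tape0 (c : (wM e).Cfg) (q' w d) (z : ℤ) : (nxt c q' w d).tape 0 z = c.tape 0 z := by
  by_cases h : z = c.head 0
  · subst h; simp [nxt, NTM.next, NTM.scan]
  · simp [nxt, NTM.next, NTM.scan, Function.update_of_ne h]

lemma nxt_tape1 (c : (wM e).Cfg) (q' w d) (z : ℤ) :
    (nxt c q' w d).tape 1 z = if z = c.head 1 then w else c.tape 1 z := by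
  by_cases h : z = c.head 1
  · subst h; simp [nxt, NTM.next]
  · simp [nxt, NTM.next, h]

lemma rep_input {q st} {a : α} {rest : List α} {c : (wM e).Cfg} (h : Rep e q st (a :: rest) c)
    (q' w d) (n : ℕ) :
    (nxt c q' w d).tape 0 ((nxt c q' w d).head 0 + n) = (rest[n]?).map Sum.inl := by
  rw [nxt_tape0, nxt_head0]
  have := h.2.1 (n + 1)
  rw [List.getElem?_cons_succ] at this
  rw [← this]
  congr 1
  push_cast
  ring

lemma rep_push {q q' : St} {st : List Bool} {a : α} {rest : List α} {c : (wM e).Cfg}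
    (h : Rep e q st (a :: rest) c) (hq : off q = 1) (hq' : off q' = 1) (b : Bool) :
    Rep e q' (b :: st) rest (nxt c q' (some (.inr b)) 1) := by
  refine ⟨rfl, rep_input h _ _ _, fun n => ?_⟩
  rw [nxt_tape1, nxt_head1, hq']
  cases n with
  | zero => rw [if_pos (by simp)]; simp
  | succ n =>
    rw [if_neg (by push_cast; simp only [SignType.coe_one]; omega)]
    have := h.2.2 n
    rw [hq] at this
    rw [List.getElem?_cons_succ, ← this]
    congr 1
    simp only [SignType.coe_one]
    push_cast
    ring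

lemma rep_keep {q q' : St} {st : List Bool} {a : α} {rest : List α} {c : (wM e).Cfg}
    (h : Rep e q st (a :: rest) c) (hq : off q' = off q) :
    Rep e q' st rest (nxt c q' ((wM e).scan c 1) 0) := by
  refine ⟨rfl, rep_input h _ _ _, fun n => ?_⟩
  rw [nxt_tape1, nxt_head1, hq, ← h.2.2 n]
  have e1 : c.head 1 + ((0 : SignType) : ℤ) - off q - (n : ℤ) = c.head 1 - off q - n := by simp
  rw [e1]
  by_cases hc : c.head 1 - off q - n = c.head 1
  · rw [if_pos hc, hc]; rfl
  · rw [if_neg hc]

lemma rep_turn {q q' : St} {st : List Bool} {a : α} {rest : List α} {c : (wM e).Cfg}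
    (h : Rep e q st (a :: rest) c) (hq : off q = 1) (hq' : off q' = 0) :
    Rep e q' st rest (nxt c q' ((wM e).scan c 1) (-1)) := by
  refine ⟨rfl, rep_input h _ _ _, fun n => ?_⟩
  rw [nxt_tape1, nxt_head1, hq', ← h.2.2 n, hq]
  have e1 : c.head 1 + ((-1 : SignType) : ℤ) - 0 - (n : ℤ) = c.head 1 - 1 - n := by
    simp; ring
  rw [e1, if_neg (by omega)]

lemma rep_pop {q q' : St} {st : List Bool} {b : Bool} {a : α} {rest : List α} {c : (wM e).Cfg}
    (h : Rep e q (b :: st) (a :: rest) c) (hq : off q = 0) (hq' : off q' = 0) :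
    Rep e q' st rest (nxt c q' ((wM e).scan c 1) (-1)) := by
  refine ⟨rfl, rep_input h _ _ _, fun n => ?_⟩
  have := h.2.2 (n + 1)
  rw [List.getElem?_cons_succ, hq] at this
  rw [nxt_tape1, nxt_head1, hq', ← this]
  have e1 : c.head 1 + ((-1 : SignType) : ℤ) - 0 - (n : ℤ) = c.head 1 - 0 - ((n + 1 : ℕ) : ℤ) := by
    simp; ring
  rw [e1, if_neg (by push_cast; omega)]

lemma scan0 {q st} {rest : List α} {c : (wM e).Cfg} (h : Rep e q st rest c) :
    (wM e).scan c 0 = (rest[0]?).map Sum.inl := by
  have := h.2.1 0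
  simpa [NTM.scan] using this

lemma scan1_p {st} {rest : List α} {c : (wM e).Cfg} (h : Rep e .p st rest c) :
    (wM e).scan c 1 = (st[0]?).map Sum.inr := by
  have := h.2.2 0
  simpa [NTM.scan, off] using this

lemma ctrans_of_atrans {q q' : St} {st st' : List Bool} {b : Bool} {a : α} {rest : List α}
    {c : (wM e).Cfg} (h : Rep e q st (a :: rest) c) (ht : ATrans q st b q' st') :
    ∃ w d, CTrans q ((wM e).scan c 1) b q' w d ∧ Rep e q' st' rest (nxt c q' w d) := by
  cases q with
  | c0 =>
    cases b <;> obtain ⟨rfl, rfl⟩ := ht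
    · exact ⟨_, _, ⟨rfl, rfl, rfl⟩, rep_push h rfl rfl _⟩
    · exact ⟨_, _, ⟨rfl, rfl, rfl⟩, rep_push h rfl rfl _⟩
  | c1 =>
    obtain ⟨rfl, rfl⟩ := ht
    exact ⟨_, _, ⟨rfl, rfl, rfl⟩, rep_push h rfl rfl _⟩
  | c2 =>
    cases b
    · obtain ⟨hq, rfl⟩ := ht
      exact ⟨_, _, ⟨hq, rfl, rfl⟩, rep_push h rfl (by rcases hq with rfl | rfl <;> rfl) _⟩
    · exact ht.elim
  | s0 =>
    cases b <;> obtain ⟨rfl, rfl⟩ := ht
    · exact ⟨_, _, ⟨rfl, rfl, rfl⟩, rep_keep h rfl⟩
    · exact ⟨_, _, ⟨rfl, rfl, rfl⟩, rep_keep h rfl⟩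
  | s1 =>
    obtain ⟨rfl, rfl⟩ := ht
    exact ⟨_, _, ⟨rfl, rfl, rfl⟩, rep_keep h rfl⟩
  | s2 =>
    cases b
    · obtain ⟨hq, rfl⟩ := ht
      exact ⟨_, _, ⟨hq, rfl, rfl⟩, rep_keep h (by rcases hq with rfl | rfl <;> rfl)⟩
    · obtain ⟨rfl, rfl⟩ := ht
      exact ⟨_, _, ⟨rfl, rfl, rfl⟩, rep_turn h rfl rfl⟩
  | p =>
    obtain ⟨rfl, rfl⟩ := ht
    refine ⟨_, _, ⟨rfl, ?_, rfl, rfl⟩, rep_pop h rfl rfl⟩
    rw [scan1_p h]; rfl
  | dead => exact ht.elim

lemma atrans_of_ctrans {q q' : St} {st : List Bool} {b : Bool} {a : α} {rest : List α}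
    {c : (wM e).Cfg} {w : Option (α ⊕ Bool)} {d : SignType} (h : Rep e q st (a :: rest) c)
    (ht : CTrans q ((wM e).scan c 1) b q' w d) :
    ∃ st', ATrans q st b q' st' ∧ Rep e q' st' rest (nxt c q' w d) := by
  cases q with
  | c0 =>
    cases b <;> obtain ⟨rfl, rfl, rfl⟩ := ht
    · exact ⟨_, ⟨rfl, rfl⟩, rep_push h rfl rfl _⟩
    · exact ⟨_, ⟨rfl, rfl⟩, rep_push h rfl rfl _⟩
  | c1 =>
    obtain ⟨rfl, rfl, rfl⟩ := ht
    exact ⟨_, ⟨rfl, rfl⟩, rep_push h rfl rfl _⟩
  | c2 =>
    cases b
    · obtain ⟨hq, rfl, rfl⟩ := ht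
      exact ⟨_, ⟨hq, rfl⟩, rep_push h rfl (by rcases hq with rfl | rfl <;> rfl) _⟩
    · exact ht.elim
  | s0 =>
    cases b <;> obtain ⟨rfl, rfl, rfl⟩ := ht
    · exact ⟨_, ⟨rfl, rfl⟩, rep_keep h rfl⟩
    · exact ⟨_, ⟨rfl, rfl⟩, rep_keep h rfl⟩
  | s1 =>
    obtain ⟨rfl, rfl, rfl⟩ := ht
    exact ⟨_, ⟨rfl, rfl⟩, rep_keep h rfl⟩
  | s2 =>
    cases b
    · obtain ⟨hq, rfl, rfl⟩ := ht
      exact ⟨_, ⟨hq, rfl⟩, rep_keep h (by rcases hq with rfl | rfl <;> rfl)⟩
    · obtain ⟨rfl, rfl, rfl⟩ := ht
      exact ⟨_, ⟨rfl, rfl⟩, rep_turn h rfl rfl⟩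
  | p =>
    obtain ⟨rfl, hs, rfl, rfl⟩ := ht
    rw [scan1_p h] at hs
    cases st with
    | nil => simp at hs
    | cons t st =>
      simp only [List.getElem?_cons_zero, Option.map_some, Option.some.injEq,
        Sum.inr.injEq] at hs
      subst hs
      exact ⟨st, ⟨rfl, rfl⟩, rep_pop h rfl rfl⟩
  | dead => exact ht.elim

lemma dead_no {c : (wM e).Cfg} (hc : c.state = St.dead) {t g : ℕ} {c' : (wM e).Cfg}
    (hr : (wM e).Run t g c c') : ¬ (wM e).Accepting c' := by
  have hstep : ∀ c1, ¬ (wM e).Step c c1 := by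
    rintro c1 ⟨τ, hτ, _⟩
    rcases hτ with ⟨b, _, q', w, d, h, _⟩ | ⟨h, _⟩
    · rw [hc] at h; exact h
    · rw [hc] at h; cases h
  cases hr with
  | refl _ =>
    intro h
    have : c.state = St.p := h.2
    rw [hc] at this
    cases this
  | det h _ _ => exact absurd h (hstep _)
  | nondet h _ _ => exact absurd h (hstep _)

lemma sim (rest : List α) : ∀ (q : St) (st : List Bool)
    (c : (wM e).Cfg), Rep e q st rest c →
    (Acc e q st rest → ∃ g ≤ rest.length, ∃ c', (wM e).Run rest.length g c c' ∧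
      (wM e).Accepting c') ∧
    (∀ t g c', (wM e).Run t g c c' → (wM e).Accepting c' → Acc e q st rest) := by
  induction rest with
  | nil =>
    intro q st c h
    have hs0 : (wM e).scan c 0 = none := by rw [scan0 h]; rfl
    constructor
    · rintro ⟨rfl, rfl⟩
      refine ⟨0, le_rfl, c, .refl c, ?_, ?_⟩
      · rintro c1 ⟨τ, hτ, _⟩
        rcases hτ with ⟨b, hb, _⟩ | ⟨_, h2, _⟩
        · rw [hs0] at hb; simp at hb
        · exact h2 ⟨hs0, by rw [scan1_p h]; rfl⟩
      · exact h.1
    · intro t g c' hr ha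
      have hdead : ∀ c1, (wM e).Step c c1 → c1.state = St.dead := by
        rintro c1 ⟨τ, hτ, rfl⟩
        rcases hτ with ⟨b, hb, _⟩ | ⟨_, _, _, rfl⟩
        · rw [hs0] at hb; simp at hb
        · rfl
      cases hr with
      | refl _ =>
        have hq : q = .p := by rw [← h.1]; exact ha.2
        subst hq
        refine ⟨rfl, ?_⟩
        cases st with
        | nil => rfl
        | cons t st =>
          exfalso
          refine ha.1 ((wM e).next c (.dead, (wM e).scan c, ![0, 0])) ⟨_, Or.inr ⟨h.1, ?_, ?_, rfl⟩, rfl⟩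
          · rintro ⟨_, h2⟩
            rw [scan1_p h] at h2; simp at h2
          · rintro ⟨b, hb, _⟩
            rw [hs0] at hb; simp at hb
      | det h1 _ h3 => exact absurd ha (dead_no (hdead _ h1) h3)
      | nondet h1 _ h3 => exact absurd ha (dead_no (hdead _ h1) h3)
  | cons a rest ih =>
    intro q st c h
    have hs0 : (wM e).scan c 0 = some (.inl a) := by rw [scan0 h]; rfl
    constructor
    · rintro ⟨b, hb, q', st', ht, hA⟩
      obtain ⟨w, d, hct, hrep⟩ := ctrans_of_atrans h ht
      obtain ⟨g, hg, c', hr, ha⟩ := (ih q' st' _ hrep).1 hA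
      have hstep : (wM e).Step c (nxt c q' w d) := by
        refine ⟨_, Or.inl ⟨b, by rw [hs0, hb], q', w, d, ?_, rfl⟩, rfl⟩
        rw [h.1]; exact hct
      by_cases hbr : (wM e).Branching c
      · exact ⟨g + 1, by simpa using hg, c', .nondet hstep hbr hr, ha⟩
      · exact ⟨g, by simp; omega, c', .det hstep hbr hr, ha⟩
    · intro t g c' hr ha
      have hstep : ∀ c1, (wM e).Step c c1 → c1.state = St.dead ∨
          (∀ t g, (wM e).Run t g c1 c' → Acc e q st (a :: rest)) := by
        rintro c1 ⟨τ, hτ, rfl⟩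
        rcases hτ with ⟨b, hb, q', w, d, hct, rfl⟩ | ⟨_, _, _, rfl⟩
        · right
          intro t g hr
          rw [h.1] at hct
          obtain ⟨st', hat, hrep⟩ := atrans_of_ctrans h hct
          have hA := (ih q' st' _ hrep).2 t g c' hr ha
          rw [hs0] at hb
          have hab : e b = a := by
            have := Option.some.inj hb
            exact (Sum.inl.inj this).symm
          exact ⟨b, hab, q', st', hat, hA⟩
        · left; rfl
      cases hr with
      | refl _ =>
        exfalso
        have hq : c.state = .p := ha.2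
        by_cases hm : ∃ b, (wM e).scan c 0 = some (.inl (e b)) ∧ (wM e).scan c 1 = some (.inr b)
        · obtain ⟨b, hb1, hb2⟩ := hm
          refine ha.1 (nxt c .p ((wM e).scan c 1) (-1))
            ⟨_, Or.inl ⟨b, hb1, .p, (wM e).scan c 1, -1, ?_, rfl⟩, rfl⟩
          rw [hq]
          exact ⟨rfl, hb2, rfl, rfl⟩
        · refine ha.1 ((wM e).next c (.dead, (wM e).scan c, ![0, 0]))
            ⟨_, Or.inr ⟨hq, ?_, hm, rfl⟩, rfl⟩
          rintro ⟨h1, _⟩
          rw [hs0] at h1; simp at h1
      | det h1 _ h3 =>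
        rcases hstep _ h1 with h | h
        · exact absurd ha (dead_no h h3)
        · exact h _ _ h3
      | nondet h1 _ h3 =>
        rcases hstep _ h1 with h | h
        · exact absurd ha (dead_no h h3)
        · exact h _ _ h3

lemma rep_init (x : List α) : Rep e .s0 [] x ((wM e).init x) := by
  refine ⟨rfl, fun n => ?_, fun n => ?_⟩
  · simp [NTM.init]
  · simp [NTM.init]

variable (e)

/-- The witness language. -/
def wL : Set (List α) := {x | Acc e .s0 [] x}

lemma wL_mem : wL e ∈ QClass α (fun n => n) := by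
  refine ⟨wM e, fun x => ⟨fun hx => ?_, ?_⟩, fun x hx => ?_⟩
  · obtain ⟨g, _, c', hr, ha⟩ := (sim x _ _ _ (rep_init x)).1 hx
    exact ⟨_, g, c', hr, ha⟩
  · rintro ⟨T, G, c', hr, ha⟩
    exact (sim x _ _ _ (rep_init x)).2 T G c' hr ha
  · obtain ⟨g, hg, c', hr, ha⟩ := (sim x _ _ _ (rep_init x)).1 hx
    exact ⟨_, g, ⟨c', hr, ha⟩, le_rfl, Nat.cast_le.2 hg⟩

end Machine

end Pool.Agent.Results.MP_18af55_lc.StrictLog

namespace Pool.Agent.Results.MP_18af55_lc.StrictLog

/-! ### The lower bound -/

/-- Parameters exist. -/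
lemma exists_l (B : ℕ) : ∃ l : ℕ, B ^ (2 * (2 * l + 7)) < 2 ^ (2 ^ l) := by
  refine ⟨2 * B + 9, ?_⟩
  have h1 : B < 2 ^ B := Nat.lt_two_pow_self
  have h2 : B ^ (2 * (2 * (2 * B + 9) + 7)) ≤ (2 ^ B) ^ (2 * (2 * (2 * B + 9) + 7)) :=
    Nat.pow_le_pow_left h1.le _
  refine h2.trans_lt ?_
  rw [← pow_mul]
  refine Nat.pow_lt_pow_right (by norm_num) ?_
  have h3 : (B + 1) * (B + 1) ≤ 2 ^ B * 2 ^ B := Nat.mul_le_mul h1 h1
  have h4 : 2 ^ (2 * B + 9) = 512 * (2 ^ B * 2 ^ B) := by
    rw [pow_add, two_mul, pow_add]; norm_num; ring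
  rw [h4]
  nlinarith

section Lower

variable {α : Type} [Finite α] (e : Bool → α) (he : Function.Injective e)
include he

lemma wL_not_mem (g : ℕ → ℝ) (hg : ∀ ε : ℝ, 0 < ε → ∀ᶠ n : ℕ in atTop, g n ≤ ε * n) :
    wL e ∉ QClass α g := by
  rintro ⟨M, hM1, hM2⟩
  obtain ⟨l, hl⟩ := exists_l M.base
  -- constants
  set C : ℕ := Nat.card M.Act + 1 with hC
  set K : ℕ := 4 + (2 ^ l * (2 * l + 4) + 2) + (2 * l + 6) with hK
  have hlogC : 0 ≤ Real.log C := Real.log_natCast_nonneg C
  have hKpos : (0 : ℝ) < K := by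
    have : 0 < K := by rw [hK]; omega
    exact_mod_cast this
  obtain ⟨N, hN⟩ := eventually_atTop.1 (hg (1 / (2 * K * (Real.log C + 1)))
    (by positivity))
  -- number of segments
  set k : ℕ := N + 1 with hk
  set p : ℕ := 4 + k * (2 ^ l * (2 * l + 4) + 2) with hp
  set r : ℕ := k * (2 * l + 6) with hr
  have hn : N ≤ p + r := by
    have : k ≤ k * (2 * l + 6) := Nat.le_mul_of_pos_right _ (by omega)
    omega
  have hnK : p + r ≤ k * K := by
    rw [hp, hr, hK]
    have : 4 ≤ k * 4 := by omega
    nlinarith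
  set G : ℕ := ⌊g (p + r)⌋₊ with hG
  have hGle : (G : ℝ) ≤ (1 / (2 * K * (Real.log C + 1))) * ((p + r : ℕ) : ℝ) := by
    rw [hG]
    by_cases hneg : 0 ≤ g (p + r)
    · exact (Nat.floor_le hneg).trans (hN _ hn)
    · rw [Nat.floor_of_nonpos (not_le.1 hneg).le]
      simp only [Nat.cast_zero]
      positivity
  have hT : ((C ^ G : ℕ) : ℝ) ≤ Real.exp (k / 2) := by
    have hCpos : (0 : ℝ) < C := by
      have : 0 < C := by omega
      exact_mod_cast this
    push_cast
    rw [← Real.exp_log hCpos, ← Real.exp_nat_mul]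
    refine Real.exp_le_exp.2 ?_
    have h1 : ((p + r : ℕ) : ℝ) ≤ (k : ℝ) * K := by exact_mod_cast hnK
    have h2 : (G : ℝ) ≤ (1 / (2 * K * (Real.log C + 1))) * ((k : ℝ) * K) :=
      hGle.trans (mul_le_mul_of_nonneg_left h1 (by positivity))
    calc (G : ℝ) * Real.log C ≤ (1 / (2 * K * (Real.log C + 1))) * ((k : ℝ) * K) * Real.log C :=
          mul_le_mul_of_nonneg_right h2 hlogC
      _ = (k / 2) * (Real.log C / (Real.log C + 1)) := by
          have : Real.log C + 1 ≠ 0 := by positivity
          field_simp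
      _ ≤ (k / 2) * 1 := by
          refine mul_le_mul_of_nonneg_left ?_ (by positivity)
          rw [div_le_one (by positivity)]
          linarith
      _ = k / 2 := mul_one _
  -- the words
  let u : (Fin k → (Fin l → Bool) → Bool) → List α := fun D => (dbWord (xsOf k l D)).map e
  let y : (Fin k → Fin l → Bool) → (Fin k → Bool) → List α := fun a β =>
    (qWord (zOf k l a β)).map e
  have hu : ∀ D, (u D).length = p := fun D => by
    simp only [u, List.length_map]; exact length_dbWord k l D
  have hy : ∀ a β, (y a β).length = r := fun a β => by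
    simp only [y, List.length_map]; exact length_qWord k l a β
  have hmem : ∀ D a β, (u D ++ y a β ∈ wL e ↔ ∀ j, β j = D j (a j)) := by
    intro D a β
    rw [← zOf_sublist_iff]
    exact acc_iff e he _ _
  have := NTM.finite_loc M r
  have hcard := counting (V := Fin l → Bool) (Λ := M.Loc r) k (C ^ G)
    (by simp)
    (fun lam => {q | ∃ c : M.Cfg, c.head 0 ≤ p ∧ M.loc p r c = lam ∧
      M.AccFrom r (M.paste p (y q.1 q.2) c)})
    (fun D => M.loc p r '' M.Reach p G (M.init (u D)))
    ?_ ?_ ?_ hT
  · -- final contradiction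
    have h1 := NTM.card_loc_le M r
    have h2 : Nat.card (M.Loc r) ^ 2 ≤ (M.base ^ (r + 1)) ^ 2 := Nat.pow_le_pow_left h1 2
    have hbase : 1 ≤ M.base := by
      by_contra hcon
      have h0 : M.base = 0 := by omega
      rw [h0] at h1
      have h3 : Nat.card (M.Loc r) = 0 := by
        rw [zero_pow (by omega)] at h1
        omega
      rw [h3] at hcard
      have : 0 < 2 ^ (k * Fintype.card (Fin l → Bool)) := by positivity
      omega
    have h3 : (M.base ^ (r + 1)) ^ 2 ≤ (M.base ^ (2 * (2 * l + 7))) ^ k := by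
      rw [← pow_mul, ← pow_mul]
      refine Nat.pow_le_pow_right hbase ?_
      rw [hr]
      nlinarith
    have h4 : (M.base ^ (2 * (2 * l + 7))) ^ k < (2 ^ (2 ^ l)) ^ k :=
      Nat.pow_lt_pow_left hl (by omega)
    have h5 : (2 ^ (2 ^ l)) ^ k = 2 ^ (k * Fintype.card (Fin l → Bool)) := by
      rw [← pow_mul]
      simp [mul_comm]
    omega
  · -- few local data
    intro D
    have h1 := M.reach_card p G (M.init (u D))
    exact (Set.ncard_image_le h1.1).trans h1.2
  · -- completeness
    intro D a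
    have hin : u D ++ y a (fun j => D j (a j)) ∈ wL e := (hmem D a _).2 fun j => rfl
    obtain ⟨T, G', ⟨c'', hrun, hacc⟩, hTn, hGn⟩ := hM2 _ hin
    have hlen : (u D ++ y a (fun j => D j (a j))).length = p + r := by
      rw [List.length_append, hu, hy]
    rw [hlen] at hTn hGn
    have hTn' : T ≤ p + r := Nat.cast_le.1 hTn
    have hGn' : G' ≤ G := Nat.le_floor hGn
    have hsr := M.srun_of_run hrun hacc.1 (p + r) hTn'
    obtain ⟨c', g1, g2, hg1, hr1, hr2⟩ := M.srun_split hsr
    rw [← M.paste_init, hu] at hr1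
    obtain ⟨c1, hc1, rfl⟩ := NTM.srun_paste (by simp [NTM.init]) hr1
    refine ⟨M.loc p r c1, ⟨c1, ⟨g1, hg1.trans hGn', hc1⟩, rfl⟩, c1, ?_, rfl, ?_⟩
    · have := NTM.head_srun hc1 0
      simpa [NTM.init] using this
    · exact ⟨g2, c'', hr2, hacc⟩
  · -- soundness
    rintro D lam ⟨c1, ⟨g1, _, hc1⟩, rfl⟩ a β ⟨c, hch, hloc, hacc⟩
    rw [← hmem D a β]
    have hc1h : c1.head 0 ≤ p := by
      have := NTM.head_srun hc1 0
      simpa [NTM.init] using this
    have hnear := NTM.near_of_loc (y := y a β) hloc hch hc1h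
    obtain ⟨g2, c'', hr2, ha⟩ := hnear.accFrom hacc
    have hr1 := NTM.srun_paste' (p := p) (y := y a β) (by simp [NTM.init]) hc1
    have hr := M.srun_append hr1 hr2
    have hinit : M.paste p (y a β) (M.init (u D)) = M.init (u D ++ y a β) := by
      have := M.paste_init (u D) (y a β)
      rwa [hu D] at this
    rw [hinit] at hr
    obtain ⟨T, hT⟩ := M.run_of_srun hr
    exact (hM1 _).2 ⟨T, _, c'', hT, ha⟩

end Lower

lemma qClass_mono {α : Type} {g g' : ℕ → ℝ} (h : ∀ n, g n ≤ g' n) :
    QClass α g ⊆ QClass α g' := by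
  rintro A ⟨M, h1, h2⟩
  refine ⟨M, h1, fun x hx => ?_⟩
  obtain ⟨T, G, h3, h4, h5⟩ := h2 x hx
  exact ⟨T, G, h3, h4, h5.trans (h _)⟩

/-- For `g = o(n)`, `Q_g` is strictly contained in `Q_n`. -/
theorem strict_of_little_o (α : Type) [Finite α] [Nontrivial α] (g : ℕ → ℝ)
    (hle : ∀ n, g n ≤ n) (hg : ∀ ε : ℝ, 0 < ε → ∀ᶠ n : ℕ in atTop, g n ≤ ε * n) :
    QClass α g ⊂ QClass α (fun n => n) := by
  obtain ⟨a, b, hab⟩ := exists_pair_ne α
  have he : Function.Injective (fun c : Bool => if c then a else b) := by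
    intro c d hcd
    cases c <;> cases d <;> simp_all
  refine ⟨qClass_mono hle, fun hsub => ?_⟩
  exact wL_not_mem _ he g hg (hsub (wL_mem _))

theorem result (α : Type) [Finite α] [Nontrivial α] :
    QClass α (fun n => Real.logb 2 n) ⊂ QClass α (fun n => n) := by
  apply strict_of_little_o
  · intro n
    rcases Nat.eq_zero_or_pos n with rfl | hn
    · simp
    · have h1 : (0 : ℝ) < n := by exact_mod_cast hn
      rw [Real.logb_le_iff_le_rpow (by norm_num) h1, Real.rpow_natCast]
      exact_mod_cast Nat.lt_two_pow_self.le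
  · intro ε hε
    have h1 : (fun n : ℕ => Real.log (n : ℝ)) =o[atTop] (fun n : ℕ => (n : ℝ)) :=
      Real.isLittleO_log_id_atTop.comp_tendsto tendsto_natCast_atTop_atTop
    have h2 := h1.bound (show 0 < ε * Real.log 2 by positivity)
    filter_upwards [h2] with n hn
    rw [Real.logb, div_le_iff₀ (Real.log_pos (by norm_num))]
    have h3 := le_abs_self (Real.log (n : ℝ))
    simp only [Real.norm_eq_abs, Nat.abs_cast] at hn
    nlinarith

end Pool.Agent.Results.MP_18af55_lc.StrictLog
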